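import Pool.Agent.V11330.TC.Lower

set_option autoImplicit false

namespace Pool.Agent.V11330.TC

open Finset

variable {k t : ℕ}

/-- surjectivity of the class map at level one -/
lemma lift_one (ht : 0 < t) (j : J k t) (x : Fin t) (y' : Fin (3 * t))
    (z' : Fin k → Fin (3 * t)) : ∃ (y : Fin (3 * t)) (z : Fin k → Fin (3 * t)),
    Phi j 1 (x, y, z) = ((x : ℤ) + t, (y' : ℤ), fun i => ((z' i : ℕ) : ℤ)) := by
  have hn' : (0 : ℤ) < (3 * t : ℕ) := by positivity
  have hy0 := Int.emod_nonneg ((y' : ℤ) - U j) hn'.ne'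
  have hy1 := Int.emod_lt_of_pos ((y' : ℤ) - U j) hn'
  set y : Fin (3 * t) := ⟨(((y' : ℤ) - U j) % (3 * t : ℕ)).toNat, by omega⟩ with hy
  have hyv : (y : ℤ) = ((y' : ℤ) - U j) % (3 * t : ℕ) := by
    rw [hy]; simp only; rw [Int.toNat_of_nonneg hy0]
  set q : ℤ := ((y : ℤ) + U j) / (3 * t : ℕ) with hq
  have hz0 := fun i => Int.emod_nonneg (((z' i : ℕ) : ℤ) - V j i + q * W j i) hn'.ne'
  have hz1 := fun i => Int.emod_lt_of_pos (((z' i : ℕ) : ℤ) - V j i + q * W j i) hn'
  refine ⟨y, fun i => ⟨((((z' i : ℕ) : ℤ) - V j i + q * W j i) % (3 * t : ℕ)).toNat, by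
    have := hz0 i; have := hz1 i; omega⟩, ?_⟩
  refine Prod.ext ?_ (Prod.ext ?_ ?_)
  · simp [Phi]
  · simp only [Phi, Fin.val_one, Nat.cast_one, one_mul]
    rw [hyv, Int.emod_add_emod]
    have : (y' : ℤ) - U j + U j = (y' : ℤ) := by ring
    rw [this]
    exact Int.emod_eq_of_lt (by positivity) (by have := y'.2; omega)
  · funext i
    simp only [Phi, Fin.val_one, Nat.cast_one, one_mul]
    rw [Int.toNat_of_nonneg (hz0 i), ← hq]
    have e : (((z' i : ℕ) : ℤ) - V j i + q * W j i) % (3 * t : ℕ) + V j i - q * W j i =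
      (((z' i : ℕ) : ℤ) - V j i + q * W j i) % (3 * t : ℕ) + (V j i - q * W j i) := by ring
    rw [e, Int.emod_add_emod]
    have : ((z' i : ℕ) : ℤ) - V j i + q * W j i + (V j i - q * W j i) = ((z' i : ℕ) : ℤ) := by ring
    rw [this]
    exact Int.emod_eq_of_lt (by positivity) (by have := (z' i).2; omega)

/-- two different parameters are separated at some height `y₀` -/
lemma differ (ht : 0 < t) {j j' : J k t} (hne : j ≠ j') : ∃ y₀ : Fin (3 * t), ∀ x : Fin t,
    Phi j 1 (x, y₀, fun _ => ⟨0, by omega⟩) ≠ Phi j' 1 (x, y₀, fun _ => ⟨0, by omega⟩) := by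
  have hn' : (0 : ℤ) < (3 * t : ℕ) := by positivity
  obtain ⟨u, v, w⟩ := j
  obtain ⟨u', v', w'⟩ := j'
  have hu := u.2
  have hu' := u'.2
  by_cases h1 : u = u'
  · subst h1
    by_cases h2 : v = v'
    · subst h2
      have h3 : w ≠ w' := fun h => hne (by rw [h])
      have h4 : ∃ i, w i ≠ w' i := by
        by_contra hc; push Not at hc; exact h3 (funext hc)
      obtain ⟨i, hi⟩ := h4
      refine ⟨⟨3 * t - 1, by omega⟩, fun x h => ?_⟩
      have h5 := congrFun (Prod.ext_iff.1 (Prod.ext_iff.1 h).2).2 i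
      simp only [Phi, Fin.val_one, Nat.cast_one, one_mul, U, V, W, Nat.cast_zero, zero_add] at h5
      have hq : (((3 * t - 1 : ℕ) : ℤ) + ((u : ℕ) + 1)) / (3 * t : ℕ) = 1 := by
        rw [Int.ediv_eq_iff_of_pos hn']
        constructor <;> omega
      rw [hq] at h5
      have h6 : (((v i : ℕ) : ℤ) - 1 * ((w i : ℕ) : ℤ)) ≡ (((v i : ℕ) : ℤ) - 1 * ((w' i : ℕ) : ℤ))
        [ZMOD (3 * t : ℕ)] := h5
      have h7 : ((w i : ℕ) : ℤ) ≡ ((w' i : ℕ) : ℤ) [ZMOD (3 * t : ℕ)] := by
        have := (Int.ModEq.refl ((v i : ℕ) : ℤ)).sub h6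
        simpa using this
      apply hi
      have h8 : ((w i : ℕ) : ℤ) = ((w' i : ℕ) : ℤ) := by
        have a1 := Int.emod_eq_of_lt (a := ((w i : ℕ) : ℤ)) (b := (3 * t : ℕ)) (by positivity)
          (by have := (w i).2; omega)
        have a2 := Int.emod_eq_of_lt (a := ((w' i : ℕ) : ℤ)) (b := (3 * t : ℕ)) (by positivity)
          (by have := (w' i).2; omega)
        rw [← a1, ← a2]; exact h7
      exact Fin.ext (by exact_mod_cast h8)
    · have h4 : ∃ i, v i ≠ v' i := by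
        by_contra hc; push Not at hc; exact h2 (funext hc)
      obtain ⟨i, hi⟩ := h4
      refine ⟨⟨0, by omega⟩, fun x h => ?_⟩
      have h5 := congrFun (Prod.ext_iff.1 (Prod.ext_iff.1 h).2).2 i
      simp only [Phi, Fin.val_one, Nat.cast_one, one_mul, U, V, W, Nat.cast_zero, zero_add] at h5
      have hq : ((((u : ℕ) : ℤ) + 1)) / (3 * t : ℕ) = 0 := by
        apply Int.ediv_eq_zero_of_lt (by positivity)
        omega
      rw [hq, zero_mul, sub_zero, zero_mul, sub_zero] at h5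
      apply hi
      have h8 : ((v i : ℕ) : ℤ) = ((v' i : ℕ) : ℤ) := by
        have a1 := Int.emod_eq_of_lt (a := ((v i : ℕ) : ℤ)) (b := (3 * t : ℕ)) (by positivity)
          (by have := (v i).2; omega)
        have a2 := Int.emod_eq_of_lt (a := ((v' i : ℕ) : ℤ)) (b := (3 * t : ℕ)) (by positivity)
          (by have := (v' i).2; omega)
        rw [← a1, ← a2]; exact h5
      exact Fin.ext (by exact_mod_cast h8)
  · refine ⟨⟨0, by omega⟩, fun x h => ?_⟩
    have h5 := (Prod.ext_iff.1 (Prod.ext_iff.1 h).2).1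
    simp only [Phi, Fin.val_one, Nat.cast_one, one_mul, U, V, W, Nat.cast_zero, zero_add] at h5
    apply h1
    rw [Int.emod_eq_of_lt (by positivity) (by omega), Int.emod_eq_of_lt (by positivity) (by omega)]
      at h5
    exact Fin.ext (by omega)

open Classical in
/-- colourings of `j` giving a set which also comes from `j'` -/
noncomputable def bad (j j' : J k t) : Finset (I k t → Fin 3) :=
  Finset.univ.filter fun c => ∃ c', enc j c = enc j' c'

lemma bad_bound (ht : 0 < t) {j j' : J k t} (hne : j ≠ j') :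
    (bad j j').card * 9 ^ t ≤ 8 ^ t * 3 ^ (Fintype.card (I k t)) := by
  classical
  obtain ⟨y₀, hy₀⟩ := differ ht hne
  set z₀ : Fin k → Fin (3 * t) := fun _ => ⟨0, by omega⟩ with hz₀
  -- targets
  have hn' : (0 : ℤ) < (3 * t : ℕ) := by positivity
  have htar : ∀ x : Fin t, ∃ (y' : Fin (3 * t)) (z' : Fin k → Fin (3 * t)),
      Phi j' 1 (x, y₀, z₀) = ((x : ℤ) + t, (y' : ℤ), fun i => ((z' i : ℕ) : ℤ)) := by
    intro x
    have a0 := Int.emod_nonneg ((y₀ : ℤ) + 1 * U j') hn'.ne'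
    have a1 := Int.emod_lt_of_pos ((y₀ : ℤ) + 1 * U j') hn'
    have b0 := fun i => Int.emod_nonneg (((z₀ i : ℕ) : ℤ) + 1 * V j' i -
      (((y₀ : ℤ) + 1 * U j') / (3 * t : ℕ)) * W j' i) hn'.ne'
    have b1 := fun i => Int.emod_lt_of_pos (((z₀ i : ℕ) : ℤ) + 1 * V j' i -
      (((y₀ : ℤ) + 1 * U j') / (3 * t : ℕ)) * W j' i) hn'
    refine ⟨⟨(((y₀ : ℤ) + 1 * U j') % (3 * t : ℕ)).toNat, by omega⟩,
      fun i => ⟨((((z₀ i : ℕ) : ℤ) + 1 * V j' i -
      (((y₀ : ℤ) + 1 * U j') / (3 * t : ℕ)) * W j' i) % (3 * t : ℕ)).toNat, by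
        have := b0 i; have := b1 i; omega⟩, ?_⟩
    refine Prod.ext ?_ (Prod.ext ?_ ?_)
    · simp [Phi]
    · simp only [Phi, Fin.val_one, Nat.cast_one]
      rw [Int.toNat_of_nonneg a0]
    · funext i
      simp only [Phi, Fin.val_one, Nat.cast_one]
      rw [Int.toNat_of_nonneg (b0 i)]
  have hB : ∀ x : Fin t, ∃ b : I k t, b.1 = x ∧ Phi j 1 b = Phi j' 1 (x, y₀, z₀) := by
    intro x
    obtain ⟨y', z', h⟩ := htar x
    obtain ⟨y, z, h'⟩ := lift_one ht j x y' z'
    exact ⟨(x, y, z), rfl, by rw [h', h]⟩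
  choose B hB1 hB2 using hB
  have hinj : Function.Injective (Sum.elim (fun x : Fin t => ((x, y₀, z₀) : I k t)) B) := by
    intro a b hab
    cases a with
    | inl a =>
      cases b with
      | inl b =>
        simp only [Sum.elim_inl] at hab
        have h1 : a = b := (Prod.ext_iff.1 hab).1
        rw [h1]
      | inr b =>
        simp only [Sum.elim_inl, Sum.elim_inr] at hab
        exfalso
        have h1 : a = b := by rw [← hB1 b, ← hab]
        subst h1
        apply hy₀ a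
        rw [← hB2 a, ← hab]
    | inr a =>
      cases b with
      | inl b =>
        simp only [Sum.elim_inl, Sum.elim_inr] at hab
        exfalso
        have h1 : a = b := by rw [← hB1 a, hab]
        subst h1
        apply hy₀ a
        rw [← hB2 a, hab]
      | inr b =>
        simp only [Sum.elim_inr] at hab
        have h1 : a = b := by rw [← hB1 a, ← hB1 b, hab]
        rw [h1]
  refine le_trans (Nat.mul_le_mul_right _ (Finset.card_le_card ?_)) (avoid_count t _ B hinj)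
  intro c hc
  rw [bad, Finset.mem_filter] at hc
  obtain ⟨-, c', hcc⟩ := hc
  rw [Finset.mem_filter]
  refine ⟨Finset.mem_univ _, ?_⟩
  rintro x ⟨h0, h1⟩
  have e0 : emb (Phi j 0 (x, y₀, z₀)) ∈ enc j c := (mem_enc ht j c 0 _).2 h0
  have e1 : emb (Phi j 1 (B x)) ∈ enc j c := (mem_enc ht j c 1 _).2 h1
  rw [hB2 x, hcc, mem_enc ht] at e1
  have e2 : Phi j 0 (x, y₀, z₀) = Phi j' 0 (x, y₀, z₀) := by
    refine Prod.ext ?_ (Prod.ext ?_ ?_)
    · simp [Phi]
    · simp [Phi]
    · funext i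
      simp only [Phi, Fin.val_zero, Nat.cast_zero, zero_mul, add_zero, hz₀, zero_add]
      have : (y₀ : ℤ) / (3 * t : ℕ) = 0 :=
        Int.ediv_eq_zero_of_lt (by positivity) (by have := y₀.2; omega)
      rw [this]; simp
  rw [e2, hcc, mem_enc ht] at e0
  rw [e0] at e1
  exact absurd e1 (by decide)

open Classical in
noncomputable def good (j : J k t) : Finset (I k t → Fin 3) :=
  Finset.univ \ (Finset.univ.erase j).biUnion fun j' => bad j j'

lemma good_count (ht : 0 < t) :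
    (∑ j : J k t, (good j).card) ≤ tileCount (3 * t) (k + 2) := by
  classical
  rw [← Finset.card_sigma, tileCount]
  apply Finset.card_le_card_of_injOn (fun p : (Σ _ : J k t, (I k t → Fin 3)) => enc p.1 p.2)
  · rintro ⟨j, c⟩ -
    rw [Finset.mem_coe, Finset.mem_filter, Finset.mem_powerset]
    exact ⟨enc_cube ht j c, enc_tiles ht j c⟩
  · rintro ⟨j, c⟩ h ⟨j', c'⟩ h' heq
    rw [Finset.mem_coe, Finset.mem_sigma] at h h'
    simp only at heq h h'
    have hj : j = j' := by
      by_contra hne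
      have h1 := h.2
      rw [good, Finset.mem_sdiff, Finset.mem_biUnion] at h1
      apply h1.2
      refine ⟨j', ?_, ?_⟩
      · rw [Finset.mem_erase]; exact ⟨fun e => hne e.symm, Finset.mem_univ _⟩
      · rw [bad, Finset.mem_filter]
        exact ⟨Finset.mem_univ _, c', heq⟩
    subst hj
    congr 1
    funext p
    have h1 : emb (Phi j (c p) p) ∈ enc j c := (mem_enc ht j c _ p).2 rfl
    rw [heq, mem_enc ht] at h1
    exact h1.symm

lemma good_card (ht : 0 < t) (j : J k t) :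
    (3 : ℝ) ^ (Fintype.card (I k t)) * (1 - (Fintype.card (J k t) : ℝ) * (8 / 9) ^ t) ≤
      ((good j).card : ℝ) := by
  classical
  have h1 : (Finset.univ : Finset (I k t → Fin 3)).card -
      ((Finset.univ.erase j).biUnion fun j' => bad j j').card ≤ (good j).card :=
    Finset.le_card_sdiff _ _
  have h2 : (Finset.univ : Finset (I k t → Fin 3)).card = 3 ^ (Fintype.card (I k t)) := by
    rw [Finset.card_univ, Fintype.card_fun, Fintype.card_fin]
  rw [h2] at h1
  have h3 : ((((Finset.univ.erase j).biUnion fun j' => bad j j').card : ℕ) : ℝ) ≤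
      (Fintype.card (J k t) : ℝ) * ((8 / 9) ^ t * 3 ^ (Fintype.card (I k t))) := by
    calc ((((Finset.univ.erase j).biUnion fun j' => bad j j').card : ℕ) : ℝ) ≤
        ((∑ j' ∈ Finset.univ.erase j, (bad j j').card : ℕ) : ℝ) := by
          exact_mod_cast Finset.card_biUnion_le
      _ = ∑ j' ∈ Finset.univ.erase j, ((bad j j').card : ℝ) := by push_cast; rfl
      _ ≤ ∑ j' ∈ Finset.univ.erase j, ((8 / 9) ^ t * 3 ^ (Fintype.card (I k t)) : ℝ) := by
          apply Finset.sum_le_sum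
          intro j' hj'
          rw [Finset.mem_erase] at hj'
          have h4 := bad_bound ht (fun e => hj'.1 e.symm : j ≠ j')
          have h5 : ((bad j j').card : ℝ) * 9 ^ t ≤ 8 ^ t * 3 ^ (Fintype.card (I k t)) := by
            exact_mod_cast h4
          rw [div_pow, div_mul_eq_mul_div, le_div_iff₀ (by positivity)]
          exact h5
      _ = ((Finset.univ.erase j).card : ℝ) * ((8 / 9) ^ t * 3 ^ (Fintype.card (I k t))) := by
          rw [Finset.sum_const, nsmul_eq_mul]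
      _ ≤ _ := by
          apply mul_le_mul_of_nonneg_right _ (by positivity)
          have : (Finset.univ.erase j).card ≤ Fintype.card (J k t) := Finset.card_le_univ _
          exact_mod_cast this
  have h6 : (3 : ℝ) ^ (Fintype.card (I k t)) -
      ((((Finset.univ.erase j).biUnion fun j' => bad j j').card : ℕ) : ℝ) ≤ ((good j).card : ℝ) := by
    have : 3 ^ (Fintype.card (I k t)) ≤ (good j).card +
        ((Finset.univ.erase j).biUnion fun j' => bad j j').card := by omega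
    have h7 : (3 : ℝ) ^ (Fintype.card (I k t)) ≤ ((good j).card : ℝ) +
      ((((Finset.univ.erase j).biUnion fun j' => bad j j').card : ℕ) : ℝ) := by exact_mod_cast this
    linarith
  calc _ = (3 : ℝ) ^ (Fintype.card (I k t)) -
        (Fintype.card (J k t) : ℝ) * ((8 / 9) ^ t * 3 ^ (Fintype.card (I k t))) := by ring
    _ ≤ _ := by linarith
    _ ≤ _ := h6

lemma card_I : Fintype.card (I k t) = t * (3 * t) ^ (k + 1) := by
  simp only [I, Fintype.card_prod, Fintype.card_fin, Fintype.card_fun]; ring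

lemma card_J : Fintype.card (J k t) = (3 * t - 1) * ((3 * t) ^ k * (3 * t) ^ k) := by
  simp only [J, Fintype.card_prod, Fintype.card_fin, Fintype.card_fun]

lemma three_pow_card_I : (3 : ℝ) ^ (Fintype.card (I k t)) = c3 ^ ((3 * t) ^ (k + 2)) := by
  rw [card_I, ← c3_cube, ← pow_mul]
  congr 1
  ring

/-- the lower bound at `n = 3t` -/
lemma lower_t (ht : 0 < t) (hsmall : (Fintype.card (J k t) : ℝ) * (8 / 9) ^ t ≤ 1 / 2) :
    (1 / 2 : ℝ) * (((3 * t - 1 : ℕ) : ℝ) * ((3 * t : ℕ) : ℝ) ^ (2 * k)) *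
      c3 ^ ((3 * t) ^ (k + 2)) ≤ (tileCount (3 * t) (k + 2) : ℝ) := by
  have h1 : ((∑ j : J k t, (good j).card : ℕ) : ℝ) ≤ (tileCount (3 * t) (k + 2) : ℝ) := by
    exact_mod_cast good_count ht
  refine le_trans ?_ h1
  push_cast
  have h2 : ∀ j : J k t, (1 / 2 : ℝ) * c3 ^ ((3 * t) ^ (k + 2)) ≤ ((good j).card : ℝ) := by
    intro j
    refine le_trans ?_ (good_card ht j)
    rw [three_pow_card_I]
    have := c3_pos
    have h3 : 0 < c3 ^ ((3 * t) ^ (k + 2)) := by positivity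
    nlinarith
  calc _ = ∑ j : J k t, (1 / 2 : ℝ) * c3 ^ ((3 * t) ^ (k + 2)) := by
        rw [Finset.sum_const, Finset.card_univ, card_J, nsmul_eq_mul]
        push_cast
        rw [two_mul k, pow_add]
        ring
    _ ≤ _ := Finset.sum_le_sum fun j _ => h2 j

/-- for large `t`, the overlaps are negligible -/
lemma eventually_small (k : ℕ) : ∃ t₀ : ℕ, ∀ t ≥ t₀,
    (Fintype.card (J k t) : ℝ) * (8 / 9) ^ t ≤ 1 / 2 := by
  have h1 : Filter.Tendsto (fun t : ℕ => (t : ℝ) ^ (2 * k + 1) * (8 / 9 : ℝ) ^ t)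
      Filter.atTop (nhds 0) :=
    tendsto_pow_const_mul_const_pow_of_abs_lt_one (2 * k + 1) (by norm_num [abs_of_pos])
  have h2 : Filter.Tendsto (fun t : ℕ => (3 : ℝ) ^ (2 * k + 1) *
      ((t : ℝ) ^ (2 * k + 1) * (8 / 9 : ℝ) ^ t)) Filter.atTop (nhds 0) := by
    simpa using h1.const_mul ((3 : ℝ) ^ (2 * k + 1))
  have h3 := (h2.eventually (ge_mem_nhds (by norm_num : (0 : ℝ) < 1 / 2)))
  obtain ⟨t₀, ht₀⟩ := Filter.eventually_atTop.1 h3
  refine ⟨t₀, fun t ht => le_trans ?_ (ht₀ t ht)⟩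
  rw [card_J]
  have h4 : (((3 * t - 1) * ((3 * t) ^ k * (3 * t) ^ k) : ℕ) : ℝ) ≤ ((3 * t) ^ (2 * k + 1) : ℕ) := by
    have : (3 * t - 1) * ((3 * t) ^ k * (3 * t) ^ k) ≤ (3 * t) ^ (2 * k + 1) := by
      calc (3 * t - 1) * ((3 * t) ^ k * (3 * t) ^ k) ≤ (3 * t) * ((3 * t) ^ k * (3 * t) ^ k) :=
            Nat.mul_le_mul_right _ (by omega)
        _ = (3 * t) ^ (2 * k + 1) := by rw [two_mul, pow_add, pow_add]; ring
    exact_mod_cast this
  calc _ ≤ (((3 * t) ^ (2 * k + 1) : ℕ) : ℝ) * (8 / 9) ^ t :=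
        mul_le_mul_of_nonneg_right h4 (by positivity)
    _ = _ := by push_cast; rw [mul_pow]; ring

theorem lower (k : ℕ) (K : ℝ) (n₀ : ℕ) : ∃ n ≥ n₀, 1 ≤ n ∧
    K * (n : ℝ) ^ (2 * k) * c3 ^ (n ^ (k + 2)) < (tileCount n (k + 2) : ℝ) := by
  obtain ⟨t₀, ht₀⟩ := eventually_small k
  obtain ⟨m, hm⟩ := exists_nat_gt (2 * K + 1)
  set t := max (max t₀ n₀) (m + 1) with htdef
  have h1 : t₀ ≤ t := (le_max_left _ _).trans (le_max_left _ _)
  have h2 : n₀ ≤ t := (le_max_right _ _).trans (le_max_left _ _)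
  have h3 : m + 1 ≤ t := le_max_right _ _
  have ht : 0 < t := by omega
  refine ⟨3 * t, by omega, by omega, ?_⟩
  refine lt_of_lt_of_le ?_ (lower_t (k := k) ht (ht₀ t h1))
  have h4 : 0 < c3 ^ ((3 * t) ^ (k + 2)) := by have := c3_pos; positivity
  apply mul_lt_mul_of_pos_right _ h4
  have h5 : (0 : ℝ) < ((3 * t : ℕ) : ℝ) ^ (2 * k) := by positivity
  rw [← mul_assoc]
  apply mul_lt_mul_of_pos_right _ h5
  have h6 : (m : ℝ) ≤ ((3 * t - 1 : ℕ) : ℝ) := by
    exact_mod_cast (by omega : m ≤ 3 * t - 1)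
  linarith

end Pool.Agent.V11330.TC
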