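import Mathlib

set_option autoImplicit false

namespace Pool.Agent.V11330.TC

/-- `G` is the direct sum of `S` and `T`: every `x` is `s + t` in exactly one way. -/
def IsCompl' {G : Type*} [AddCommGroup G] (S T : Set G) : Prop :=
  ∀ x : G, ∃! p : G × G, p.1 ∈ S ∧ p.2 ∈ T ∧ x = p.1 + p.2

/-- `S` tiles the abelian group `G` by translations. -/
def Tiles {G : Type*} [AddCommGroup G] (S : Set G) : Prop :=
  ∃ T : Set G, IsCompl' S T

/-- The cube `[n]^d = {1, …, n}^d` in `ℤ^d`. -/
noncomputable def cube (n d : ℕ) : Finset (Fin d → ℤ) :=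
  Fintype.piFinset fun _ => Finset.Icc 1 (n : ℤ)

open Classical in
/-- `tileCount n d = t_{n,d}`: the number of subsets of `[n]^d` tiling `ℤ^d` by translations. -/
noncomputable def tileCount (n d : ℕ) : ℕ :=
  ((cube n d).powerset.filter fun S : Finset (Fin d → ℤ) => Tiles (S : Set (Fin d → ℤ))).card

end Pool.Agent.V11330.TC
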