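import Pool.Agent.V11330.TC.Upper

set_option autoImplicit false

namespace Pool.Agent.V11330.TC

open Finset

/-! ### counting colourings avoiding a pattern on disjoint pairs -/

lemma avoid_count {I : Type} [Fintype I] [DecidableEq I] (t : ℕ) (P B : Fin t → I)
    (hinj : Function.Injective (Sum.elim P B)) :
    (Finset.univ.filter fun c : I → Fin 3 => ∀ i, ¬ (c (P i) = 0 ∧ c (B i) = 1)).card * 9 ^ t ≤
      8 ^ t * 3 ^ (Fintype.card I) := by
  classical
  let R := {x : I // x ∉ Set.range (Sum.elim P B)}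
  have h1 : (Finset.univ.filter fun c : I → Fin 3 => ∀ i, ¬ (c (P i) = 0 ∧ c (B i) = 1)).card ≤
      Fintype.card ((Fin t → {q : Fin 3 × Fin 3 // q ≠ (0, 1)}) × (R → Fin 3)) := by
    rw [← Fintype.card_coe]
    let F : {c // c ∈ (Finset.univ.filter fun c : I → Fin 3 =>
        ∀ i, ¬ (c (P i) = 0 ∧ c (B i) = 1))} →
        ((Fin t → {q : Fin 3 × Fin 3 // q ≠ (0, 1)}) × (R → Fin 3)) := fun c =>
      (fun i => ⟨(c.1 (P i), c.1 (B i)), fun h => (Finset.mem_filter.1 c.2).2 i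
        ⟨(Prod.ext_iff.1 h).1, (Prod.ext_iff.1 h).2⟩⟩, fun r => c.1 r.1)
    apply Fintype.card_le_of_injective F
    intro c c' h
    apply Subtype.ext
    funext x
    by_cases hx : x ∈ Set.range (Sum.elim P B)
    · obtain ⟨s, hs⟩ := hx
      have h2 := congrArg Prod.fst h
      cases s with
      | inl i =>
        have h3 := congrArg (fun q => q.1.1) (congrFun h2 i)
        simp only [Sum.elim_inl] at hs
        rw [← hs]; exact h3
      | inr i =>
        have h3 := congrArg (fun q => q.1.2) (congrFun h2 i)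
        simp only [Sum.elim_inr] at hs
        rw [← hs]; exact h3
    · have h2 := congrArg Prod.snd h
      exact congrFun h2 ⟨x, hx⟩
  have h8 : Fintype.card {q : Fin 3 × Fin 3 // q ≠ (0, 1)} = 8 := by decide
  have hR : Fintype.card R + 2 * t = Fintype.card I := by
    have h2 : Fintype.card R = Fintype.card I - Fintype.card (Set.range (Sum.elim P B)) := by
      have := Fintype.card_subtype_compl (fun x => x ∈ Set.range (Sum.elim P B))
      exact this
    have h3 : Fintype.card (Set.range (Sum.elim P B)) = 2 * t := by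
      rw [Set.card_range_of_injective hinj]
      simp; ring
    have h4 : Fintype.card (Set.range (Sum.elim P B)) ≤ Fintype.card I :=
      Fintype.card_subtype_le _
    omega
  rw [Fintype.card_prod, Fintype.card_fun, Fintype.card_fun, h8, Fintype.card_fin,
    Fintype.card_fin] at h1
  calc _ ≤ (8 ^ t * 3 ^ (Fintype.card R)) * 9 ^ t := Nat.mul_le_mul_right _ h1
    _ = 8 ^ t * 3 ^ (Fintype.card I) := by
      rw [← hR, pow_add, pow_mul]
      norm_num
      ring

/-! ### the lattices -/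

section Lat

variable (k t : ℕ)

/-- abstract model of `ℤ^{k+2}` -/
abbrev G := ℤ × ℤ × (Fin k → ℤ)

/-- base points -/
abbrev I := Fin t × Fin (3 * t) × (Fin k → Fin (3 * t))

/-- parameters -/
abbrev J := Fin (3 * t - 1) × (Fin k → Fin (3 * t)) × (Fin k → Fin (3 * t))

variable {k t}

def base (p : I k t) : G k := ((p.1 : ℤ), (p.2.1 : ℤ), fun i => ((p.2.2 i : ℕ) : ℤ))

def U (j : J k t) : ℤ := (j.1 : ℕ) + 1
def V (j : J k t) (i : Fin k) : ℤ := ((j.2.1 i : ℕ) : ℤ)
def W (j : J k t) (i : Fin k) : ℤ := ((j.2.2 i : ℕ) : ℤ)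

/-- `l`-th point in the class of the base point `p` -/
def Phi (j : J k t) (l : Fin 3) (p : I k t) : G k :=
  ((p.1 : ℤ) + (l : ℕ) * t, ((p.2.1 : ℤ) + (l : ℕ) * U j) % (3 * t : ℕ),
    fun i => (((p.2.2 i : ℕ) : ℤ) + (l : ℕ) * V j i -
      (((p.2.1 : ℤ) + (l : ℕ) * U j) / (3 * t : ℕ)) * W j i) % (3 * t : ℕ))

/-- the lattice -/
def Lam (j : J k t) : AddSubgroup (G k) where
  carrier := {g | ∃ i a : ℤ, ∃ b : Fin k → ℤ, g = (i * t, i * U j + a * (3 * t : ℕ),
    fun q => i * V j q + a * W j q + (3 * t : ℕ) * b q)}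
  zero_mem' := ⟨0, 0, 0, by
    refine Prod.ext ?_ (Prod.ext ?_ ?_)
    · simp
    · simp
    · funext q; simp⟩
  add_mem' := by
    rintro _ _ ⟨i, a, b, rfl⟩ ⟨i', a', b', rfl⟩
    refine ⟨i + i', a + a', b + b', ?_⟩
    refine Prod.ext ?_ (Prod.ext ?_ ?_)
    · simp only [Prod.fst_add]; ring
    · simp only [Prod.snd_add, Prod.fst_add]; ring
    · funext q; simp only [Prod.snd_add, Pi.add_apply]; ring
  neg_mem' := by
    rintro _ ⟨i, a, b, rfl⟩
    refine ⟨-i, -a, -b, ?_⟩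
    refine Prod.ext ?_ (Prod.ext ?_ ?_)
    · simp only [Prod.fst_neg]; ring
    · simp only [Prod.snd_neg, Prod.fst_neg]; ring
    · funext q; simp only [Prod.snd_neg, Pi.neg_apply]; ring

lemma mem_Lam {j : J k t} {g : G k} : g ∈ Lam j ↔ ∃ i a : ℤ, ∃ b : Fin k → ℤ,
    g = (i * t, i * U j + a * (3 * t : ℕ), fun q => i * V j q + a * W j q + (3 * t : ℕ) * b q) :=
  Iff.rfl

lemma L1 (j : J k t) (l : Fin 3) (p : I k t) : Phi j l p - base p ∈ Lam j := by
  rw [mem_Lam]
  refine ⟨(l : ℕ), -(((p.2.1 : ℤ) + (l : ℕ) * U j) / (3 * t : ℕ)),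
    fun i => -((((p.2.2 i : ℕ) : ℤ) + (l : ℕ) * V j i -
      (((p.2.1 : ℤ) + (l : ℕ) * U j) / (3 * t : ℕ)) * W j i) / (3 * t : ℕ)), ?_⟩
  refine Prod.ext ?_ (Prod.ext ?_ ?_)
  · simp [Phi, base]
  · simp only [Phi, base, Prod.snd_sub, Prod.fst_sub]
    rw [Int.emod_def]; ring
  · funext i
    simp only [Phi, base, Prod.snd_sub, Pi.sub_apply]
    rw [Int.emod_def (((p.2.2 i : ℕ) : ℤ) + (l : ℕ) * V j i -
      (((p.2.1 : ℤ) + (l : ℕ) * U j) / (3 * t : ℕ)) * W j i)]; ring

lemma L2 (ht : 0 < t) (j : J k t) (X : G k) : ∃ p : I k t, X - base p ∈ Lam j := by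
  obtain ⟨X, Y, Z⟩ := X
  have ht' : (0 : ℤ) < t := by exact_mod_cast ht
  have hn' : (0 : ℤ) < (3 * t : ℕ) := by positivity
  set i := X / t with hi
  set a := (Y - i * U j) / (3 * t : ℕ) with ha
  have hx0 := Int.emod_nonneg X ht'.ne'
  have hx1 := Int.emod_lt_of_pos X ht'
  have hy0 := Int.emod_nonneg (Y - i * U j) hn'.ne'
  have hy1 := Int.emod_lt_of_pos (Y - i * U j) hn'
  have hz0 := fun q => Int.emod_nonneg (Z q - i * V j q - a * W j q) hn'.ne'
  have hz1 := fun q => Int.emod_lt_of_pos (Z q - i * V j q - a * W j q) hn'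
  refine ⟨(⟨(X % t).toNat, by omega⟩, ⟨((Y - i * U j) % (3 * t : ℕ)).toNat, by omega⟩,
    fun q => ⟨((Z q - i * V j q - a * W j q) % (3 * t : ℕ)).toNat, by
      have := hz0 q; have := hz1 q; omega⟩), ?_⟩
  rw [mem_Lam]
  refine ⟨i, a, fun q => (Z q - i * V j q - a * W j q) / (3 * t : ℕ), ?_⟩
  refine Prod.ext ?_ (Prod.ext ?_ ?_)
  · simp only [base, Prod.fst_sub]
    rw [Int.toNat_of_nonneg hx0, Int.emod_def, hi]; ring
  · simp only [base, Prod.snd_sub, Prod.fst_sub]
    rw [Int.toNat_of_nonneg hy0, Int.emod_def, ← ha]; ring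
  · funext q
    simp only [base, Prod.snd_sub, Pi.sub_apply]
    rw [Int.toNat_of_nonneg (hz0 q), Int.emod_def]; ring

lemma small_mul {a m r : ℤ} (hm : 0 < m) (h : r = a * m) (h1 : r < m) (h2 : -m < r) : a = 0 := by
  by_contra hne
  rcases lt_or_gt_of_ne hne with h3 | h3
  · have : a * m ≤ -1 * m := mul_le_mul_of_nonneg_right (by omega) hm.le
    linarith
  · have : 1 * m ≤ a * m := mul_le_mul_of_nonneg_right (by omega) hm.le
    linarith

lemma L3 (ht : 0 < t) (j : J k t) (p p' : I k t) (h : base p - base p' ∈ Lam j) : p = p' := by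
  rw [mem_Lam] at h
  obtain ⟨i, a, b, h⟩ := h
  have ht' : (0 : ℤ) < t := by exact_mod_cast ht
  have hn' : (0 : ℤ) < (3 * t : ℕ) := by positivity
  obtain ⟨x, y, z⟩ := p
  obtain ⟨x', y', z'⟩ := p'
  have h1 := (Prod.ext_iff.1 h).1
  have h2 := (Prod.ext_iff.1 (Prod.ext_iff.1 h).2).1
  have h3 := (Prod.ext_iff.1 (Prod.ext_iff.1 h).2).2
  simp only [base, Prod.fst_sub, Prod.snd_sub] at h1 h2 h3
  have hi : i = 0 := small_mul ht' h1 (by have := x.2; omega) (by have := x'.2; omega)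
  subst hi
  have h2' : ((y : ℕ) : ℤ) - ((y' : ℕ) : ℤ) = a * (3 * t : ℕ) := by rw [h2]; ring
  have ha : a = 0 := small_mul hn' h2' (by have := y.2; omega)
    (by have := y'.2; omega)
  subst ha
  have hb : ∀ q, b q = 0 := fun q => by
    have h4 := congrFun h3 q
    simp only [Pi.sub_apply] at h4
    have h4' : ((z q : ℕ) : ℤ) - ((z' q : ℕ) : ℤ) = b q * (3 * t : ℕ) := by rw [h4]; ring
    exact small_mul hn' h4' (by have := (z q).2; omega)
      (by have := (z' q).2; omega)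
  refine Prod.ext ?_ (Prod.ext ?_ ?_)
  · apply Fin.ext; show (x : ℕ) = x'; simp at h1; omega
  · apply Fin.ext; show (y : ℕ) = y'; simp at h2; omega
  · funext q
    apply Fin.ext
    show (z q : ℕ) = z' q
    have h4 := congrFun h3 q
    simp [hb q] at h4
    omega

lemma Phi_inj (ht : 0 < t) (j : J k t) {l l' : Fin 3} {p p' : I k t}
    (h : Phi j l p = Phi j l' p') : l = l' ∧ p = p' := by
  have ht' : (0 : ℤ) < t := by exact_mod_cast ht
  have h1 : p = p' := by
    apply L3 ht j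
    have e1 := L1 j l p
    have e2 := L1 j l' p'
    rw [h] at e1
    have e3 := (Lam j).sub_mem e2 e1
    have : Phi j l' p' - base p' - (Phi j l' p' - base p) = base p - base p' := by abel
    rwa [this] at e3
  refine ⟨?_, h1⟩
  subst h1
  have h2 := (Prod.ext_iff.1 h).1
  simp only [Phi] at h2
  have h3 : ((l : ℕ) : ℤ) = ((l' : ℕ) : ℤ) := by
    have : ((l : ℕ) : ℤ) * t = ((l' : ℕ) : ℤ) * t := by linarith
    exact mul_right_cancel₀ ht'.ne' this
  exact Fin.ext (by exact_mod_cast h3)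

/-- the tile as a subset of the model group -/
def tile (j : J k t) (c : I k t → Fin 3) : Set (G k) := Set.range fun p => Phi j (c p) p

lemma tile_compl (ht : 0 < t) (j : J k t) (c : I k t → Fin 3) :
    IsCompl' (tile j c) (Lam j : Set (G k)) := by
  intro X
  obtain ⟨p, hp⟩ := L2 ht j X
  refine ⟨(Phi j (c p) p, X - Phi j (c p) p), ⟨⟨p, rfl⟩, ?_, by simp⟩, ?_⟩
  · have := (Lam j).sub_mem hp (L1 j (c p) p)
    have e : X - base p - (Phi j (c p) p - base p) = X - Phi j (c p) p := by abel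
    rw [e] at this
    exact this
  · rintro ⟨s, lam⟩ ⟨⟨p', hp'⟩, hl, hX⟩
    simp only at hp' hl hX
    have h1 : p' = p := by
      apply L3 ht j
      have e1 := L1 j (c p') p'
      rw [hp'] at e1
      have e2 := (Lam j).sub_mem hp ((Lam j).add_mem e1 hl)
      have e : X - base p - (s - base p' + lam) = base p' - base p := by rw [hX]; abel
      rwa [e] at e2
    subst h1
    subst hp'
    rw [hX]
    simp

/-! ### transfer to `Fin (k+2) → ℤ` -/

/-- the identification of the model group with `ℤ^{k+2}`, shifted by `(1,…,1)` -/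
def emb (g : G k) : Fin (k + 2) → ℤ :=
  Fin.cons (g.1 + 1) (Fin.cons (g.2.1 + 1) fun i => g.2.2 i + 1)

def emb0 (g : G k) : Fin (k + 2) → ℤ :=
  Fin.cons g.1 (Fin.cons g.2.1 g.2.2)

lemma emb_add (g h : G k) : emb (g + h) = emb g + emb0 h := by
  funext i
  refine Fin.cases ?_ (fun i => Fin.cases ?_ (fun i => ?_) i) i
  · simp [emb, emb0]; ring
  · simp [emb, emb0]; ring
  · simp [emb, emb0]; ring

lemma emb_inj : Function.Injective (emb (k := k)) := by
  intro g h e
  have h0 := congrFun e 0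
  have h1 := congrFun e (Fin.succ 0)
  have h2 := fun i : Fin k => congrFun e i.succ.succ
  simp [emb] at h0 h1 h2
  exact Prod.ext h0 (Prod.ext h1 (funext h2))

lemma emb0_inj : Function.Injective (emb0 (k := k)) := by
  intro g h e
  have h0 := congrFun e 0
  have h1 := congrFun e (Fin.succ 0)
  have h2 := fun i : Fin k => congrFun e i.succ.succ
  simp [emb0] at h0 h1 h2
  exact Prod.ext h0 (Prod.ext h1 (funext h2))

lemma emb_surj (X : Fin (k + 2) → ℤ) : ∃ g : G k, emb g = X := by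
  refine ⟨(X 0 - 1, X (Fin.succ 0) - 1, fun i => X i.succ.succ - 1), ?_⟩
  funext i
  refine Fin.cases ?_ (fun i => Fin.cases ?_ (fun i => ?_) i) i
  · simp [emb]
  · simp [emb]
  · simp [emb]

lemma compl_emb {S T : Set (G k)} (h : IsCompl' S T) :
    IsCompl' (emb '' S) (emb0 '' T) := by
  intro X
  obtain ⟨g, rfl⟩ := emb_surj X
  obtain ⟨⟨s, q⟩, ⟨hs, hq, hg⟩, hu⟩ := h g
  simp only at hs hq hg
  refine ⟨(emb s, emb0 q), ⟨⟨s, hs, rfl⟩, ⟨q, hq, rfl⟩, by rw [hg, emb_add]⟩, ?_⟩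
  rintro ⟨_, _⟩ ⟨⟨s', hs', rfl⟩, ⟨q', hq', rfl⟩, hX⟩
  simp only at hX
  rw [← emb_add] at hX
  have := hu (s', q') ⟨hs', hq', emb_inj hX⟩
  rw [Prod.ext_iff] at this
  simp only at this
  rw [this.1, this.2]

open Classical in
/-- the tile as a finite subset of the cube -/
noncomputable def enc (j : J k t) (c : I k t → Fin 3) : Finset (Fin (k + 2) → ℤ) :=
  Finset.univ.image fun p => emb (Phi j (c p) p)

lemma mem_enc (ht : 0 < t) (j : J k t) (c : I k t → Fin 3) (l : Fin 3) (p : I k t) :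
    emb (Phi j l p) ∈ enc j c ↔ c p = l := by
  classical
  rw [enc, Finset.mem_image]
  constructor
  · rintro ⟨p', -, h⟩
    obtain ⟨h1, h2⟩ := Phi_inj ht j (emb_inj h)
    rw [← h2]; exact h1
  · rintro rfl
    exact ⟨p, Finset.mem_univ _, rfl⟩

lemma enc_tiles (ht : 0 < t) (j : J k t) (c : I k t → Fin 3) :
    Tiles ((enc j c : Finset (Fin (k + 2) → ℤ)) : Set (Fin (k + 2) → ℤ)) := by
  refine ⟨emb0 '' (Lam j : Set (G k)), ?_⟩
  have : ((enc j c : Finset (Fin (k + 2) → ℤ)) : Set (Fin (k + 2) → ℤ)) = emb '' (tile j c) := by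
    classical
    ext x
    rw [Finset.mem_coe, enc, Finset.mem_image, Set.mem_image]
    constructor
    · rintro ⟨p, -, h⟩
      exact ⟨_, ⟨p, rfl⟩, h⟩
    · rintro ⟨_, ⟨p, rfl⟩, h⟩
      exact ⟨p, Finset.mem_univ _, h⟩
  rw [this]
  exact compl_emb (tile_compl ht j c)

lemma enc_cube (ht : 0 < t) (j : J k t) (c : I k t → Fin 3) : enc j c ⊆ cube (3 * t) (k + 2) := by
  classical
  intro x hx
  rw [enc, Finset.mem_image] at hx
  obtain ⟨p, -, rfl⟩ := hx
  rw [mem_cube]
  have hn' : (0 : ℤ) < (3 * t : ℕ) := by positivity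
  intro i
  refine Fin.cases ?_ (fun i => Fin.cases ?_ (fun i => ?_) i) i
  · simp only [emb, Phi, Fin.cons_zero]
    have h1 := p.1.2
    have h2 := (c p).2
    have h3 : ((c p : ℕ) : ℤ) * t ≤ 2 * t :=
      mul_le_mul_of_nonneg_right (by omega) (by positivity)
    have h4 : 0 ≤ ((c p : ℕ) : ℤ) * t := by positivity
    push_cast
    omega
  · simp only [emb, Phi, Fin.cons_succ, Fin.cons_zero]
    have h1 := Int.emod_nonneg ((p.2.1 : ℤ) + (c p : ℕ) * U j) hn'.ne'
    have h2 := Int.emod_lt_of_pos ((p.2.1 : ℤ) + (c p : ℕ) * U j) hn'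
    omega
  · simp only [emb, Phi, Fin.cons_succ]
    have h1 := Int.emod_nonneg (((p.2.2 i : ℕ) : ℤ) + (c p : ℕ) * V j i -
      (((p.2.1 : ℤ) + (c p : ℕ) * U j) / (3 * t : ℕ)) * W j i) hn'.ne'
    have h2 := Int.emod_lt_of_pos (((p.2.2 i : ℕ) : ℤ) + (c p : ℕ) * V j i -
      (((p.2.1 : ℤ) + (c p : ℕ) * U j) / (3 * t : ℕ)) * W j i) hn'
    omega

end Lat

end Pool.Agent.V11330.TC
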