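import Pool.Agent.V11330.TC.Defs

set_option autoImplicit false

namespace Pool.Agent.V11330.TC

open Finset

lemma pow3 (q : ℕ) : q ^ 3 ≤ 3 ^ q := by
  rcases Nat.lt_or_ge q 3 with h | h
  · interval_cases q <;> norm_num
  · induction q, h using Nat.le_induction with
    | base => norm_num
    | succ q hq ih =>
      have h1 : (q + 1) ^ 3 ≤ 3 * q ^ 3 := by nlinarith [sq_nonneg (q : ℤ), mul_le_mul hq hq (by norm_num) (by positivity)]
      calc (q + 1) ^ 3 ≤ 3 * q ^ 3 := h1
        _ ≤ 3 * 3 ^ q := by omega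
        _ = 3 ^ (q + 1) := by ring

lemma transversal_bound {α ι : Type*} [DecidableEq α] [DecidableEq ι] (A : Finset α) (J : Finset ι)
    (Q : ι → Finset α)
    (hcov : ∀ a ∈ A, ∃ i ∈ J, a ∈ Q i) (hsum : ∑ i ∈ J, (Q i).card ≤ A.card)
    (F : Finset (Finset α)) (hF : ∀ S ∈ F, S ⊆ A ∧ ∀ i ∈ J, (S ∩ Q i).card = 1) :
    F.card ^ 3 ≤ 3 ^ A.card := by
  have h1 : F.card ≤ (J.pi (fun i => (Q i).powersetCard 1)).card := by
    apply Finset.card_le_card_of_injOn (fun S => fun i _ => S ∩ Q i)
    · intro S hS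
      rw [Finset.mem_coe, Finset.mem_pi]
      intro i hi
      rw [Finset.mem_powersetCard]
      exact ⟨Finset.inter_subset_right, (hF S hS).2 i hi⟩
    · intro S hS S' hS' h
      ext a
      constructor
      · intro ha
        obtain ⟨i, hi, hai⟩ := hcov a ((hF S hS).1 ha)
        have := congrFun (congrFun h i) hi
        simp only at this
        have h2 : a ∈ S ∩ Q i := Finset.mem_inter.2 ⟨ha, hai⟩
        rw [this] at h2
        exact (Finset.mem_inter.1 h2).1
      · intro ha
        obtain ⟨i, hi, hai⟩ := hcov a ((hF S' hS').1 ha)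
        have := congrFun (congrFun h i) hi
        simp only at this
        have h2 : a ∈ S' ∩ Q i := Finset.mem_inter.2 ⟨ha, hai⟩
        rw [← this] at h2
        exact (Finset.mem_inter.1 h2).1
  rw [Finset.card_pi] at h1
  simp only [Finset.card_powersetCard, Nat.choose_one_right] at h1
  calc F.card ^ 3 ≤ (∏ i ∈ J, (Q i).card) ^ 3 := Nat.pow_le_pow_left h1 3
    _ = ∏ i ∈ J, (Q i).card ^ 3 := by rw [Finset.prod_pow]
    _ ≤ ∏ i ∈ J, 3 ^ (Q i).card := Finset.prod_le_prod' fun i _ => pow3 _
    _ = 3 ^ (∑ i ∈ J, (Q i).card) := by rw [Finset.prod_pow_eq_pow_sum]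
    _ ≤ 3 ^ A.card := Nat.pow_le_pow_right (by norm_num) hsum

lemma small_subsets {α : Type*} [DecidableEq α] (A : Finset α) (J : ℕ) :
    (A.powerset.filter fun s => s.card ≤ J).card ≤ (A.card + 1) ^ J := by
  induction J with
  | zero =>
    have : (A.powerset.filter fun s => s.card ≤ 0) ⊆ {∅} := by
      intro s hs
      simp at hs
      simp [hs.2]
    calc _ ≤ ({∅} : Finset (Finset α)).card := Finset.card_le_card this
      _ = 1 := by simp
      _ ≤ _ := by simp
  | succ J ih =>
    have : (A.powerset.filter fun s => s.card ≤ J + 1) ⊆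
        (A.powerset.filter fun s => s.card ≤ J) ∪
          (A ×ˢ (A.powerset.filter fun s => s.card ≤ J)).image fun p => insert p.1 p.2 := by
      intro s hs
      rw [Finset.mem_filter, Finset.mem_powerset] at hs
      rw [Finset.mem_union]
      by_cases h : s.card ≤ J
      · left
        rw [Finset.mem_filter, Finset.mem_powerset]
        exact ⟨hs.1, h⟩
      · right
        have hne : s.Nonempty := by
          rw [← Finset.card_pos]; omega
        obtain ⟨a, ha⟩ := hne
        rw [Finset.mem_image]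
        refine ⟨(a, s.erase a), ?_, by simp [Finset.insert_erase ha]⟩
        rw [Finset.mem_product, Finset.mem_filter, Finset.mem_powerset]
        refine ⟨hs.1 ha, (Finset.erase_subset _ _).trans hs.1, ?_⟩
        rw [Finset.card_erase_of_mem ha]
        omega
    calc _ ≤ _ := Finset.card_le_card this
      _ ≤ _ := Finset.card_union_le _ _
      _ ≤ (A.card + 1) ^ J + A.card * (A.card + 1) ^ J := by
        apply add_le_add ih
        refine Finset.card_image_le.trans ?_
        rw [Finset.card_product]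
        exact Nat.mul_le_mul_left _ ih
      _ = (A.card + 1) ^ (J + 1) := by ring

lemma compl_unique {G : Type*} [AddCommGroup G] {S T : Set G} (h : IsCompl' S T) (x : G) :
    ∃! s : G, s ∈ S ∧ x - s ∈ T := by
  obtain ⟨p, ⟨h1, h2, h3⟩, hu⟩ := h x
  refine ⟨p.1, ⟨h1, ?_⟩, ?_⟩
  · rw [h3]; simpa using h2
  · rintro s ⟨hs, hxs⟩
    have := hu (s, x - s) ⟨hs, hxs, by simp⟩
    rw [← this]

/-- The window `[-n, n]^d`. -/
noncomputable def window (n d : ℕ) : Finset (Fin d → ℤ) :=
  Fintype.piFinset fun _ => Finset.Icc (-(n : ℤ)) (n : ℤ)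

lemma mem_cube {n d : ℕ} {x : Fin d → ℤ} : x ∈ cube n d ↔ ∀ i, 1 ≤ x i ∧ x i ≤ n := by
  simp [cube, Fintype.mem_piFinset, Finset.mem_Icc]

lemma mem_window {n d : ℕ} {x : Fin d → ℤ} : x ∈ window n d ↔ ∀ i, -(n:ℤ) ≤ x i ∧ x i ≤ n := by
  simp [window, Fintype.mem_piFinset, Finset.mem_Icc]

lemma card_cube (n d : ℕ) : (cube n d).card = n ^ d := by
  simp [cube, Fintype.card_piFinset]

lemma card_window (n d : ℕ) : (window n d).card = (2 * n + 1) ^ d := by
  simp only [window, Fintype.card_piFinset, Int.card_Icc, Finset.prod_const, Finset.card_univ,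
    Fintype.card_fin]
  congr 1
  omega

open Classical in
/-- the trace of `T` on the window -/
noncomputable def trace (n : ℕ) {d : ℕ} (T : Set (Fin d → ℤ)) : Finset (Fin d → ℤ) :=
  (window n d).filter fun x => x ∈ T

lemma mem_trace {n d : ℕ} {T : Set (Fin d → ℤ)} {x : Fin d → ℤ} :
    x ∈ trace n T ↔ x ∈ window n d ∧ x ∈ T := by
  classical
  simp [trace]

open Classical in
/-- the family of subsets of the cube with a complement with trace `W` -/
noncomputable def fam (n d : ℕ) (W : Finset (Fin d → ℤ)) : Finset (Finset (Fin d → ℤ)) :=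
  (cube n d).powerset.filter fun S => ∃ T : Set (Fin d → ℤ), IsCompl' (S : Set (Fin d → ℤ)) T ∧
    trace n T = W

lemma fam_bound (n d : ℕ) (W : Finset (Fin d → ℤ)) : (fam n d W).card ^ 3 ≤ 3 ^ (n ^ d) := by
  classical
  rcases (fam n d W).eq_empty_or_nonempty with h | ⟨S0, hS0⟩
  · rw [h]; simp
  · rw [fam, Finset.mem_filter, Finset.mem_powerset] at hS0
    obtain ⟨hS0c, T0, hT0, hW0⟩ := hS0
    set y : Fin d → ℤ := fun _ => (n : ℤ) + 1 with hy
    have hwin : ∀ s ∈ cube n d, ∀ p ∈ cube n d, y - s - p ∈ window n d := by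
      intro s hs p hp
      rw [mem_cube] at hs hp
      rw [mem_window]
      intro i
      have h1 := hs i
      have h2 := hp i
      simp only [Pi.sub_apply, hy]
      omega
    rw [← card_cube n d]
    apply transversal_bound (cube n d) S0 (fun s => (cube n d).filter fun p => y - s - p ∈ W)
    · intro p hp
      obtain ⟨s, ⟨hs, hs2⟩, -⟩ := compl_unique hT0 (y - p)
      refine ⟨s, hs, ?_⟩
      rw [Finset.mem_filter]
      refine ⟨hp, ?_⟩
      rw [← hW0, mem_trace]
      refine ⟨hwin s (hS0c hs) p hp, ?_⟩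
      have : y - s - p = y - p - s := by abel
      rw [this]; exact hs2
    · rw [← Finset.card_biUnion]
      · apply Finset.card_le_card
        intro p hp
        rw [Finset.mem_biUnion] at hp
        obtain ⟨s, _, hs⟩ := hp
        exact (Finset.mem_filter.1 hs).1
      · intro s hs s' hs' hne
        rw [Function.onFun, Finset.disjoint_left]
        intro p hp hp'
        rw [Finset.mem_filter, ← hW0, mem_trace] at hp hp'
        apply hne
        obtain ⟨s0, -, hu⟩ := compl_unique hT0 (y - p)
        rw [hu s ⟨hs, by have : y - p - s = y - s - p := by abel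
                         rw [this]; exact hp.2.2⟩,
          hu s' ⟨hs', by have : y - p - s' = y - s' - p := by abel
                         rw [this]; exact hp'.2.2⟩]
    · intro S hS
      rw [fam, Finset.mem_filter, Finset.mem_powerset] at hS
      obtain ⟨hSc, T, hT, hW⟩ := hS
      refine ⟨hSc, ?_⟩
      intro s hs
      obtain ⟨s1, ⟨hs1, hs2⟩, hu⟩ := compl_unique hT (y - s)
      rw [Finset.card_eq_one]
      refine ⟨s1, ?_⟩
      ext p
      rw [Finset.mem_inter, Finset.mem_filter, Finset.mem_singleton, ← hW, mem_trace]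
      constructor
      · rintro ⟨h1, h2, h3, h4⟩
        exact hu p ⟨h1, h4⟩
      · rintro rfl
        exact ⟨hs1, hSc hs1, hwin s (hS0c hs) p (hSc hs1), hs2⟩

lemma trace_card (n d : ℕ) (S : Finset (Fin d → ℤ)) (hS : S ⊆ cube n d) (T : Set (Fin d → ℤ))
    (hT : IsCompl' (S : Set (Fin d → ℤ)) T) : S.card * (trace n T).card ≤ (3 * n) ^ d := by
  classical
  rw [← Finset.card_product]
  have h3 : (Fintype.piFinset fun _ : Fin d => Finset.Icc (1 - (n : ℤ)) (2 * n : ℤ)).card
      = (3 * n) ^ d := by
    simp only [Fintype.card_piFinset, Int.card_Icc, Finset.prod_const, Finset.card_univ,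
      Fintype.card_fin]
    congr 1
    omega
  rw [← h3]
  apply Finset.card_le_card_of_injOn (fun p => p.1 + p.2)
  · rintro ⟨s, w⟩ hsw
    rw [Finset.mem_coe, Finset.mem_product] at hsw
    have h1 := mem_cube.1 (hS hsw.1)
    have h2 := mem_window.1 (mem_trace.1 hsw.2).1
    rw [Finset.mem_coe, Fintype.mem_piFinset]
    intro i
    have := h1 i
    have := h2 i
    rw [Finset.mem_Icc]
    simp only [Pi.add_apply]
    simp only at *
    omega
  · rintro ⟨s, w⟩ hsw ⟨s', w'⟩ hsw' h
    rw [Finset.mem_coe, Finset.mem_product] at hsw hsw'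
    simp only at h hsw hsw'
    obtain ⟨p, -, hu⟩ := hT (s + w)
    have e1 := hu (s, w) ⟨hsw.1, (mem_trace.1 hsw.2).2, rfl⟩
    have e2 := hu (s', w') ⟨hsw'.1, (mem_trace.1 hsw'.2).2, h⟩
    rw [e1, e2]

/-- The cube root of three. -/
noncomputable def c3 : ℝ := (3 : ℝ) ^ (1 / 3 : ℝ)

lemma c3_pos : 0 < c3 := by unfold c3; positivity

lemma c3_cube : c3 ^ 3 = 3 := by
  unfold c3
  rw [← Real.rpow_natCast, ← Real.rpow_mul (by norm_num)]
  norm_num

lemma le_c3 {N v : ℕ} (h : N ^ 3 ≤ 3 ^ v) : (N : ℝ) ≤ c3 ^ v := by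
  have h1 : ((N : ℝ)) ^ 3 ≤ (c3 ^ v) ^ 3 := by
    rw [← pow_mul, mul_comm v 3, pow_mul, c3_cube]
    exact_mod_cast h
  exact le_of_pow_le_pow_left₀ (by norm_num) (by have := c3_pos; positivity) h1

lemma small_count {α : Type*} [DecidableEq α] (A : Finset α) :
    ((A.powerset.filter fun s => 12 * s.card ≤ A.card).card : ℝ) ≤ c3 ^ A.card := by
  set x : ℝ := (1 / 8 : ℝ) ^ (1 / 12 : ℝ) with hx
  have hx0 : 0 < x := by positivity
  have hx12 : x ^ 12 = 1 / 8 := by
    rw [hx, ← Real.rpow_natCast, ← Real.rpow_mul (by norm_num)]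
    norm_num
  have hx1 : x ≤ 1 := by
    by_contra hc
    push Not at hc
    have : 1 < x ^ 12 := one_lt_pow₀ hc (by norm_num)
    rw [hx12] at this
    norm_num at this
  have h1 : ((A.powerset.filter fun s => 12 * s.card ≤ A.card).card : ℝ) * x ^ A.card ≤
      (9 / 8) ^ A.card := by
    calc ((A.powerset.filter fun s => 12 * s.card ≤ A.card).card : ℝ) * x ^ A.card
        = ∑ s ∈ A.powerset.filter (fun s => 12 * s.card ≤ A.card), x ^ A.card := by
          rw [Finset.sum_const, nsmul_eq_mul]
      _ ≤ ∑ s ∈ A.powerset.filter (fun s => 12 * s.card ≤ A.card), (1 / 8 : ℝ) ^ s.card := by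
          apply Finset.sum_le_sum
          intro s hs
          rw [Finset.mem_filter] at hs
          rw [← hx12, ← pow_mul]
          exact pow_le_pow_of_le_one hx0.le hx1 hs.2
      _ ≤ ∑ s ∈ A.powerset, (1 / 8 : ℝ) ^ s.card := by
          apply Finset.sum_le_sum_of_subset_of_nonneg (Finset.filter_subset _ _)
          intros; positivity
      _ = ∑ s ∈ A.powerset, (1 / 8 : ℝ) ^ s.card * 1 ^ (A.card - s.card) := by simp
      _ = (1 / 8 + 1) ^ A.card := Finset.sum_pow_mul_eq_add_pow _ _ _
      _ = (9 / 8) ^ A.card := by norm_num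
  have h2 : (9 / 8 : ℝ) ≤ c3 * x := by
    apply le_of_pow_le_pow_left₀ (n := 12) (by norm_num) (by have := c3_pos; positivity)
    rw [mul_pow, hx12]
    have : c3 ^ 12 = 81 := by
      have : c3 ^ 12 = (c3 ^ 3) ^ 4 := by ring
      rw [this, c3_cube]; norm_num
    rw [this]; norm_num
  have h3 : (9 / 8 : ℝ) ^ A.card ≤ c3 ^ A.card * x ^ A.card := by
    rw [← mul_pow]
    exact pow_le_pow_left₀ (by norm_num) h2 _
  have h4 := h1.trans h3
  exact le_of_mul_le_mul_right h4 (by positivity)

theorem upper (d : ℕ) : ∃ C : ℕ, ∃ K : ℝ, ∀ n : ℕ, 1 ≤ n →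
    (tileCount n d : ℝ) ≤ K * (n : ℝ) ^ C * c3 ^ (n ^ d) := by
  classical
  set J := 12 * 3 ^ d with hJ
  refine ⟨d * J, 2 ^ J * 3 ^ (d * J) + 1, ?_⟩
  intro n hn
  have hsub : ((cube n d).powerset.filter fun S : Finset (Fin d → ℤ) => Tiles (S : Set (Fin d → ℤ))) ⊆
      ((cube n d).powerset.filter fun s => 12 * s.card ≤ (cube n d).card) ∪
      ((window n d).powerset.filter fun s => s.card ≤ J).biUnion (fun W => fam n d W) := by
    intro S hS
    rw [Finset.mem_filter, Finset.mem_powerset] at hS
    obtain ⟨hSc, T, hT⟩ := hS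
    rw [Finset.mem_union]
    by_cases h : 12 * S.card ≤ (cube n d).card
    · left
      rw [Finset.mem_filter, Finset.mem_powerset]
      exact ⟨hSc, h⟩
    · right
      rw [Finset.mem_biUnion]
      refine ⟨trace n T, ?_, ?_⟩
      · rw [Finset.mem_filter, Finset.mem_powerset]
        refine ⟨Finset.filter_subset _ _, ?_⟩
        have h1 := trace_card n d S hSc T hT
        rw [card_cube] at h
        push Not at h
        by_contra hc
        push Not at hc
        have h2 : S.card * (J + 1) ≤ (3 * n) ^ d :=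
          (Nat.mul_le_mul_left _ hc).trans h1
        rw [mul_pow] at h2
        have h3 : 3 ^ d * n ^ d ≤ 3 ^ d * (12 * S.card) := Nat.mul_le_mul_left _ h.le
        have h4 : S.card * (J + 1) ≤ S.card * J := by
          calc S.card * (J + 1) ≤ 3 ^ d * (12 * S.card) := h2.trans h3
            _ = S.card * J := by rw [hJ]; ring
        have h5 : 0 < S.card := by
          by_contra h0
          push Not at h0
          have : S.card = 0 := by omega
          rw [this] at h
          simp at h
        have := Nat.le_of_mul_le_mul_left h4 h5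
        omega
      · rw [fam, Finset.mem_filter, Finset.mem_powerset]
        exact ⟨hSc, T, hT, rfl⟩
  have h1 : (tileCount n d : ℝ) ≤ c3 ^ (n ^ d) +
      ((window n d).powerset.filter fun s => s.card ≤ J).card * c3 ^ (n ^ d) := by
    have h2 : tileCount n d ≤ ((cube n d).powerset.filter fun s => 12 * s.card ≤ (cube n d).card).card
        + (((window n d).powerset.filter fun s => s.card ≤ J).biUnion
            (fun W => fam n d W)).card := by
      unfold tileCount
      exact (Finset.card_le_card hsub).trans (Finset.card_union_le _ _)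
    have h3 : (((((window n d).powerset.filter fun s => s.card ≤ J).biUnion
            (fun W => fam n d W)).card : ℕ) : ℝ) ≤
        ((window n d).powerset.filter fun s => s.card ≤ J).card * c3 ^ (n ^ d) := by
      calc (((((window n d).powerset.filter fun s => s.card ≤ J).biUnion
            (fun W => fam n d W)).card : ℕ) : ℝ) ≤
          ((∑ W ∈ (window n d).powerset.filter fun s => s.card ≤ J, (fam n d W).card : ℕ) : ℝ) := by
            exact_mod_cast Finset.card_biUnion_le
        _ = ∑ W ∈ (window n d).powerset.filter fun s => s.card ≤ J, ((fam n d W).card : ℝ) := by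
            push_cast; rfl
        _ ≤ ∑ W ∈ (window n d).powerset.filter fun s => s.card ≤ J, c3 ^ (n ^ d) :=
            Finset.sum_le_sum fun W _ => le_c3 (fam_bound n d W)
        _ = _ := by rw [Finset.sum_const, nsmul_eq_mul]
    have h4 := small_count (cube n d)
    rw [card_cube] at h4
    rw [card_cube] at h2
    calc (tileCount n d : ℝ) ≤ ((((cube n d).powerset.filter fun s => 12 * s.card ≤ n ^ d).card
        + (((window n d).powerset.filter fun s => s.card ≤ J).biUnion
            (fun W => fam n d W)).card : ℕ) : ℝ) := by exact_mod_cast h2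
      _ = _ + _ := by rw [Nat.cast_add]
      _ ≤ _ := add_le_add h4 h3
  have h5 : ((window n d).powerset.filter fun s => s.card ≤ J).card ≤
      2 ^ J * 3 ^ (d * J) * n ^ (d * J) := by
    refine (small_subsets (window n d) J).trans ?_
    rw [card_window]
    have h6 : (2 * n + 1) ^ d + 1 ≤ 2 * (3 ^ d * n ^ d) := by
      have h7 : (2 * n + 1) ^ d ≤ (3 * n) ^ d := Nat.pow_le_pow_left (by omega) d
      have h8 : 1 ≤ (3 * n) ^ d := Nat.one_le_pow _ _ (by omega)
      rw [mul_pow] at h7 h8
      omega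
    calc ((2 * n + 1) ^ d + 1) ^ J ≤ (2 * (3 ^ d * n ^ d)) ^ J := Nat.pow_le_pow_left h6 J
      _ = 2 ^ J * 3 ^ (d * J) * n ^ (d * J) := by
        rw [mul_pow, mul_pow, ← pow_mul, ← pow_mul]; ring
  have h6 : (((window n d).powerset.filter fun s => s.card ≤ J).card : ℝ) ≤
      2 ^ J * 3 ^ (d * J) * (n : ℝ) ^ (d * J) := by exact_mod_cast h5
  have hc : 0 < c3 ^ (n ^ d) := by have := c3_pos; positivity
  have hn1 : (1 : ℝ) ≤ (n : ℝ) ^ (d * J) := one_le_pow₀ (by exact_mod_cast hn)
  calc (tileCount n d : ℝ) ≤ _ := h1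
    _ ≤ c3 ^ (n ^ d) + (2 ^ J * 3 ^ (d * J) * (n : ℝ) ^ (d * J)) * c3 ^ (n ^ d) := by
      gcongr
    _ = (1 + 2 ^ J * 3 ^ (d * J) * (n : ℝ) ^ (d * J)) * c3 ^ (n ^ d) := by ring
    _ ≤ ((2 ^ J * 3 ^ (d * J) + 1) * (n : ℝ) ^ (d * J)) * c3 ^ (n ^ d) := by
      apply mul_le_mul_of_nonneg_right _ hc.le
      nlinarith
    _ = _ := by ring

end Pool.Agent.V11330.TC
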